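import Pool.Agent.Q289.OP.Stm2

/-!
# Project OP, job T: the Poincare inequality for the conditioned product measure
-/

set_option autoImplicit false
set_option linter.unusedSectionVars false

namespace Pool.Agent.Q31.OP

open MeasureTheory Set Filter Topology Q289.OP
open scoped ENNReal InnerProductSpace

section lim
variable {A : Type*} [MeasurableSpace A] {μ : Measure A} [IsProbabilityMeasure μ]

theorem med {f : A → ℝ} (hf : Measurable f) :
    ∃ T : ℝ, 0 ≤ T ∧ ENNReal.ofReal (1 / 2) ≤ μ {x | |f x| ≤ T} := by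
  have h1 : Tendsto (fun n : ℕ => μ {x | |f x| ≤ (n : ℝ)}) atTop (𝓝 (μ (⋃ n : ℕ, {x | |f x| ≤ (n : ℝ)}))) := by
    refine tendsto_measure_iUnion_atTop ?_
    intro m n hmn x hx
    exact le_trans (show |f x| ≤ (m : ℝ) from hx) (by exact_mod_cast hmn)
  have h2 : (⋃ n : ℕ, {x | |f x| ≤ (n : ℝ)}) = univ := by
    rw [eq_univ_iff_forall]
    intro x
    obtain ⟨n, hn⟩ := exists_nat_ge |f x|
    exact mem_iUnion.2 ⟨n, hn⟩
  rw [h2, measure_univ] at h1
  have h3 : ENNReal.ofReal (1 / 2) < 1 := by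
    rw [← ENNReal.ofReal_one]
    exact (ENNReal.ofReal_lt_ofReal_iff one_pos).2 (by norm_num)
  obtain ⟨n, hn⟩ := (h1.eventually (lt_mem_nhds h3)).exists
  exact ⟨n, Nat.cast_nonneg n, hn.le⟩

theorem mean_bd {f g : A → ℝ} (hf : Measurable f) {T : ℝ}
    (hT : ENNReal.ofReal (1 / 2) ≤ μ {x | |f x| ≤ T}) {D : ℝ} (hD : 0 ≤ D)
    (hle : ∀ x, |g x| ≤ |f x|)
    (h : ProbabilityTheory.evariance g μ ≤ ENNReal.ofReal D) :
    |∫ x, g x ∂μ| ≤ T + Real.sqrt (2 * D) := by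
  by_contra hcon
  push Not at hcon
  obtain ⟨m, hm⟩ : ∃ m, m = ∫ x, g x ∂μ := ⟨_, rfl⟩
  rw [← hm] at hcon
  rw [ProbabilityTheory.evariance_eq_lintegral_ofReal, ← hm] at h
  have hs := Real.sqrt_nonneg (2 * D)
  have h1 : ENNReal.ofReal ((|m| - T) ^ 2) * μ {x | |f x| ≤ T} ≤
      ∫⁻ x, ENNReal.ofReal ((g x - m) ^ 2) ∂μ := by
    have hms : MeasurableSet {x | |f x| ≤ T} := measurableSet_le hf.abs measurable_const
    calc ENNReal.ofReal ((|m| - T) ^ 2) * μ {x | |f x| ≤ T}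
        = ∫⁻ x in {x | |f x| ≤ T}, ENNReal.ofReal ((|m| - T) ^ 2) ∂μ := by
          rw [setLIntegral_const]
      _ ≤ ∫⁻ x in {x | |f x| ≤ T}, ENNReal.ofReal ((g x - m) ^ 2) ∂μ := by
          refine setLIntegral_mono' hms ?_
          intro x hx
          refine ENNReal.ofReal_le_ofReal ?_
          have h2 : |g x| ≤ T := (hle x).trans hx
          have h3 : |m| - |g x| ≤ |g x - m| := by
            rw [abs_sub_comm]
            exact abs_sub_abs_le_abs_sub m (g x)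
          rw [← sq_abs (g x - m)]
          exact pow_le_pow_left₀ (by linarith) (by linarith) 2
      _ ≤ ∫⁻ x, ENNReal.ofReal ((g x - m) ^ 2) ∂μ := setLIntegral_le_lintegral _ _
  have h2 : ENNReal.ofReal ((|m| - T) ^ 2) * ENNReal.ofReal (1 / 2) ≤ ENNReal.ofReal D :=
    (mul_le_mul' le_rfl hT).trans (h1.trans h)
  rw [← ENNReal.ofReal_mul (sq_nonneg _), ENNReal.ofReal_le_ofReal_iff hD] at h2
  have h3 : Real.sqrt (2 * D) < |m| - T := by linarith
  have h4 : 2 * D < (|m| - T) ^ 2 := (Real.sqrt_lt' (by linarith)).1 h3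
  linarith

/-- second moment about a point bounds the variance -/
theorem evar_of_lint {f : A → ℝ} (hf : Measurable f) {a D : ℝ} (hD : 0 ≤ D)
    (h : ∫⁻ x, ENNReal.ofReal ((f x - a) ^ 2) ∂μ ≤ ENNReal.ofReal D) :
    ProbabilityTheory.evariance f μ ≤ ENNReal.ofReal D := by
  obtain ⟨h1, h2⟩ := Pool.Agent.Q73.KL.var_of_lint hf hD h
  rw [← h1.ofReal_variance_eq, ProbabilityTheory.variance_eq_sub h1]
  exact ENNReal.ofReal_le_ofReal h2

theorem evar_lim {f : A → ℝ} {g : ℕ → A → ℝ} (hf : Measurable f) (hg : ∀ n, Measurable (g n))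
    (hlim : ∀ x, Tendsto (fun n => g n x) atTop (𝓝 (f x))) {D : ℝ} (hD : 0 ≤ D)
    (hle : ∀ n x, |g n x| ≤ |f x|)
    (h : ∀ n, ProbabilityTheory.evariance (g n) μ ≤ ENNReal.ofReal D) :
    ProbabilityTheory.evariance f μ ≤ ENNReal.ofReal D := by
  obtain ⟨T, hT0, hT⟩ := med (μ := μ) hf
  have hb : ∀ n, (∫ x, g n x ∂μ) ∈ Icc (-(T + Real.sqrt (2 * D))) (T + Real.sqrt (2 * D)) := fun n =>
    abs_le.1 (mean_bd hf hT hD (hle n) (h n))
  obtain ⟨m, -, ψ, hψ, hm⟩ := (isCompact_Icc (a := -(T + Real.sqrt (2 * D)))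
    (b := T + Real.sqrt (2 * D))).tendsto_subseq hb
  refine evar_of_lint hf (a := m) hD ?_
  have h1 : ∀ x, Tendsto (fun k => ENNReal.ofReal ((g (ψ k) x - ∫ y, g (ψ k) y ∂μ) ^ 2)) atTop
      (𝓝 (ENNReal.ofReal ((f x - m) ^ 2))) := by
    intro x
    refine (ENNReal.continuous_ofReal.tendsto _).comp ?_
    exact ((((hlim x).comp hψ.tendsto_atTop)).sub hm).pow 2
  calc ∫⁻ x, ENNReal.ofReal ((f x - m) ^ 2) ∂μ
      = ∫⁻ x, liminf (fun k => ENNReal.ofReal ((g (ψ k) x - ∫ y, g (ψ k) y ∂μ) ^ 2)) atTop ∂μ := by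
        refine lintegral_congr fun x => ?_
        exact (h1 x).liminf_eq.symm
    _ ≤ liminf (fun k => ∫⁻ x, ENNReal.ofReal ((g (ψ k) x - ∫ y, g (ψ k) y ∂μ) ^ 2) ∂μ) atTop := by
        refine lintegral_liminf_le fun k => ?_
        exact ENNReal.measurable_ofReal.comp (((hg (ψ k)).sub_const _).pow_const 2)
    _ ≤ ENNReal.ofReal D := by
        refine liminf_le_of_frequently_le' (Frequently.of_forall fun k => ?_)
        rw [← ProbabilityTheory.evariance_eq_lintegral_ofReal]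
        exact h (ψ k)

end lim

/-! ### truncation -/

theorem arctan_abs_le (t : ℝ) : |Real.arctan t| ≤ |t| := by
  have key : ∀ s : ℝ, 0 ≤ s → Real.arctan s ≤ s := by
    intro s hs
    have h1 : Real.arctan s < Real.pi / 2 := Real.arctan_lt_pi_div_two s
    have h2 : 0 ≤ Real.arctan s := by
      rw [← Real.arctan_zero]
      exact Real.arctan_strictMono.monotone hs
    have h3 := Real.le_tan h2 h1
    rwa [Real.tan_arctan] at h3
  have hn : ∀ s : ℝ, 0 ≤ s → 0 ≤ Real.arctan s := by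
    intro s hs
    rw [← Real.arctan_zero]
    exact Real.arctan_strictMono.monotone hs
  rcases le_total 0 t with ht | ht
  · rw [abs_of_nonneg ht, abs_of_nonneg (hn t ht)]
    exact key t ht
  · have h0 : 0 ≤ -t := by linarith
    have h1 : Real.arctan t = - Real.arctan (-t) := by rw [Real.arctan_neg, neg_neg]
    rw [h1, abs_neg, abs_of_nonneg (hn _ h0), abs_of_nonpos ht]
    exact key _ h0

theorem arctan_lim (y : ℝ) :
    Tendsto (fun n : ℕ => ((n : ℝ) + 1) * Real.arctan (y / ((n : ℝ) + 1))) atTop (𝓝 y) := by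
  have h1 : HasDerivAt (fun s : ℝ => Real.arctan (y * s)) y 0 := by
    have h2 : HasDerivAt (fun s : ℝ => y * s) y 0 := by
      simpa using (hasDerivAt_id (0 : ℝ)).const_mul y
    have h3 := h2.arctan
    simpa using h3
  have h4 := h1.tendsto_slope_zero
  have h5 : Tendsto (fun n : ℕ => (1 : ℝ) / ((n : ℝ) + 1)) atTop (𝓝[≠] 0) := by
    rw [tendsto_nhdsWithin_iff]
    refine ⟨tendsto_one_div_add_atTop_nhds_zero_nat, Eventually.of_forall fun n => ?_⟩
    have : (0 : ℝ) < (n : ℝ) + 1 := by positivity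
    exact (by positivity : (1 : ℝ) / ((n : ℝ) + 1) ≠ 0)
  have h6 := h4.comp h5
  refine h6.congr fun n => ?_
  have h7 : (0 : ℝ) < (n : ℝ) + 1 := by positivity
  simp only [Function.comp, zero_add, mul_zero, Real.arctan_zero, sub_zero, smul_eq_mul, one_div,
    inv_inv]
  rw [div_eq_mul_inv]

section pde
variable {E : Type*} [NormedAddCommGroup E] [NormedSpace ℝ E] {f : E → ℝ}

/-- the truncation -/
noncomputable def tr (f : E → ℝ) (n : ℕ) (x : E) : ℝ := ((n : ℝ) + 1) * Real.arctan (f x / ((n : ℝ) + 1))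

theorem tr_contDiff (hf : ContDiff ℝ 1 f) (n : ℕ) : ContDiff ℝ 1 (tr f n) := by
  unfold tr
  exact contDiff_const.mul (Real.contDiff_arctan.comp (hf.div_const _))

theorem tr_bdd (f : E → ℝ) (n : ℕ) : ∃ M, ∀ x, |tr f n x| ≤ M := by
  refine ⟨((n : ℝ) + 1) * (Real.pi / 2), fun x => ?_⟩
  unfold tr
  have h7 : (0 : ℝ) < (n : ℝ) + 1 := by positivity
  rw [abs_mul, abs_of_pos h7]
  refine mul_le_mul_of_nonneg_left ?_ h7.le
  rw [abs_le]
  exact ⟨(Real.neg_pi_div_two_lt_arctan _).le, (Real.arctan_lt_pi_div_two _).le⟩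

theorem tr_le (f : E → ℝ) (n : ℕ) (x : E) : |tr f n x| ≤ |f x| := by
  unfold tr
  have h7 : (0 : ℝ) < (n : ℝ) + 1 := by positivity
  rw [abs_mul, abs_of_pos h7]
  calc ((n : ℝ) + 1) * |Real.arctan (f x / ((n : ℝ) + 1))| ≤ ((n : ℝ) + 1) * |f x / ((n : ℝ) + 1)| :=
        mul_le_mul_of_nonneg_left (arctan_abs_le _) h7.le
    _ = |f x| := by
        rw [abs_div, abs_of_pos h7]
        field_simp

theorem tr_lim (f : E → ℝ) (x : E) : Tendsto (fun n => tr f n x) atTop (𝓝 (f x)) := arctan_lim (f x)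

theorem tr_fderiv (hf : ContDiff ℝ 1 f) (n : ℕ) (x : E) : ‖fderiv ℝ (tr f n) x‖ ≤ ‖fderiv ℝ f x‖ := by
  have h7 : (0 : ℝ) < (n : ℝ) + 1 := by positivity
  have h1 : HasFDerivAt f (fderiv ℝ f x) x := (hf.differentiable one_ne_zero x).hasFDerivAt
  have h2 : HasFDerivAt (fun z => f z / ((n : ℝ) + 1)) (((n : ℝ) + 1)⁻¹ • fderiv ℝ f x) x := by
    have h3 := h1.const_mul (((n : ℝ) + 1)⁻¹)
    refine h3.congr_of_eventuallyEq (Eventually.of_forall fun z => ?_)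
    simp only
    rw [div_eq_inv_mul]
  have h3 : HasFDerivAt (tr f n) (((n : ℝ) + 1) • ((1 / (1 + (f x / ((n : ℝ) + 1)) ^ 2)) •
      (((n : ℝ) + 1)⁻¹ • fderiv ℝ f x))) x := (h2.arctan).const_mul _
  rw [h3.fderiv, norm_smul, norm_smul, norm_smul, Real.norm_of_nonneg h7.le, norm_inv,
    Real.norm_of_nonneg h7.le, Real.norm_of_nonneg (by positivity)]
  have h4 : 1 / (1 + (f x / ((n : ℝ) + 1)) ^ 2) ≤ 1 := by
    rw [div_le_one (by positivity)]
    nlinarith [sq_nonneg (f x / ((n : ℝ) + 1))]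
  calc ((n : ℝ) + 1) * (1 / (1 + (f x / ((n : ℝ) + 1)) ^ 2) * (((n : ℝ) + 1)⁻¹ * ‖fderiv ℝ f x‖))
      = 1 / (1 + (f x / ((n : ℝ) + 1)) ^ 2) * ‖fderiv ℝ f x‖ := by
        field_simp
    _ ≤ 1 * ‖fderiv ℝ f x‖ := mul_le_mul_of_nonneg_right h4 (norm_nonneg _)
    _ = _ := one_mul _

end pde

/-! ### the bounded case -/

section bounded
variable {ι : Type} [Fintype ι]

theorem dual_norm_sq (l : EuclideanSpace ℝ ι →L[ℝ] ℝ) [DecidableEq ι] :
    ‖l‖ ^ 2 = ∑ i, (l (EuclideanSpace.single i 1)) ^ 2 := by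
  obtain ⟨v, hv⟩ : ∃ v, v = (InnerProductSpace.toDual ℝ (EuclideanSpace ℝ ι)).symm l := ⟨_, rfl⟩
  have h1 : ‖v‖ = ‖l‖ := by rw [hv, LinearIsometryEquiv.norm_map]
  have h2 : ∀ w, ⟪v, w⟫_ℝ = l w := fun w => by rw [hv, InnerProductSpace.toDual_symm_apply]
  rw [← h1, EuclideanSpace.norm_sq_eq]
  refine Finset.sum_congr rfl fun i _ => ?_
  rw [← h2, EuclideanSpace.inner_single_right]
  simp

theorem gr_eq [DecidableEq ι] {f : EuclideanSpace ℝ ι → ℝ} (hf : ContDiff ℝ 1 f) (x : ι → ℝ) :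
    gr (fun y : ι → ℝ => f (WithLp.toLp 2 y)) x = ‖fderiv ℝ f (WithLp.toLp 2 x)‖ ^ 2 := by
  rw [dual_norm_sq]
  unfold gr
  refine Finset.sum_congr rfl fun i _ => ?_
  have h1 : HasFDerivAt f (fderiv ℝ f (WithLp.toLp 2 x)) (WithLp.toLp 2 x) :=
    (hf.differentiable one_ne_zero _).hasFDerivAt
  have h2 : HasFDerivAt (fun y : ι → ℝ => (EuclideanSpace.equiv ι ℝ).symm y)
      ((EuclideanSpace.equiv ι ℝ).symm : (ι → ℝ) →L[ℝ] EuclideanSpace ℝ ι) x :=
    ((EuclideanSpace.equiv ι ℝ).symm : (ι → ℝ) →L[ℝ] EuclideanSpace ℝ ι).hasFDerivAt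
  have h3 : HasFDerivAt (fun y : ι → ℝ => f (WithLp.toLp 2 y))
      ((fderiv ℝ f (WithLp.toLp 2 x)).comp
        ((EuclideanSpace.equiv ι ℝ).symm : (ι → ℝ) →L[ℝ] EuclideanSpace ℝ ι)) x := h1.comp x h2
  rw [h3.fderiv]
  rfl

variable [PartialOrder ι]

theorem den_nonneg {φ : ℝ → ℝ} (hφ : ∀ x, 0 ≤ φ x) (x : ι → ℝ) : 0 ≤ den φ x := by
  unfold den
  split_ifs
  · exact Finset.prod_nonneg fun i _ => hφ _
  · exact le_rfl

theorem mono_meas : MeasurableSet {x : ι → ℝ | Monotone x} := by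
  have h1 : {x : ι → ℝ | Monotone x} = ⋂ (i : ι) (j : ι) (_ : i ≤ j), {x | x i ≤ x j} := by
    ext x
    simp only [mem_ofPred_eq, mem_iInter]
    exact ⟨fun h i j hij => h hij, fun h i j hij => h i j hij⟩
  rw [h1]
  refine MeasurableSet.iInter fun i => MeasurableSet.iInter fun j => MeasurableSet.iInter fun _ => ?_
  exact measurableSet_le (measurable_pi_apply i) (measurable_pi_apply j)

theorem den_meas {φ : ℝ → ℝ} (hφ : Measurable φ) : Measurable (den φ : (ι → ℝ) → ℝ) := by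
  unfold den
  refine Measurable.ite mono_meas ?_ measurable_const
  exact Finset.measurable_prod _ fun i _ => hφ.comp (measurable_pi_apply i)

theorem lint_om {φ : ℝ → ℝ} (hφ : Measurable φ) {G : EuclideanSpace ℝ ι → ℝ≥0∞} (hG : Measurable G) :
    ∫⁻ x, G x ∂(om ι φ) = ∫⁻ y : ι → ℝ, ENNReal.ofReal (den φ y) * G (WithLp.toLp 2 y) := by
  have hD : Measurable fun x : EuclideanSpace ℝ ι => ENNReal.ofReal (den φ fun i => x i) := by
    refine ENNReal.measurable_ofReal.comp ((den_meas hφ).comp ?_)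
    exact (EuclideanSpace.equiv ι ℝ).continuous.measurable
  unfold om
  rw [lintegral_withDensity_eq_lintegral_mul _ hD hG]
  exact ((PiLp.volume_preserving_toLp ι).lintegral_comp (hD.mul hG)).symm

theorem om_univ {φ : ℝ → ℝ} (hφ : Measurable φ) (h0 : ∀ x, 0 ≤ φ x)
    (hi : Integrable fun x : ι → ℝ => den φ x) :
    om ι φ univ = ENNReal.ofReal (∫ x : ι → ℝ, den φ x) := by
  have h1 := lint_om (ι := ι) hφ (G := fun _ => 1) measurable_const
  rw [lintegral_const, one_mul] at h1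
  rw [h1, ofReal_integral_eq_lintegral_ofReal hi (Eventually.of_forall fun x => den_nonneg h0 x)]
  simp only [mul_one]

theorem lint_mu {φ : ℝ → ℝ} (hφ : Measurable φ) (h0 : ∀ x, 0 ≤ φ x)
    (hi : Integrable fun x : ι → ℝ => den φ x) (hZ : 0 < ∫ x : ι → ℝ, den φ x)
    {G : EuclideanSpace ℝ ι → ℝ≥0∞} (hG : Measurable G) :
    ∫⁻ x, G x ∂(mu ι φ) = ENNReal.ofReal ((∫ x : ι → ℝ, den φ x)⁻¹) *
      ∫⁻ y : ι → ℝ, ENNReal.ofReal (den φ y) * G (WithLp.toLp 2 y) := by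
  unfold mu
  rw [lintegral_smul_measure, lint_om hφ hG, om_univ hφ h0 hi, ENNReal.ofReal_inv_of_pos hZ, smul_eq_mul]

theorem mu_prob {φ : ℝ → ℝ} (hφ : Measurable φ) (h0 : ∀ x, 0 ≤ φ x)
    (hi : Integrable fun x : ι → ℝ => den φ x) (hZ : 0 < ∫ x : ι → ℝ, den φ x) :
    IsProbabilityMeasure (mu ι φ) := by
  refine ⟨?_⟩
  unfold mu
  rw [Measure.smul_apply, smul_eq_mul, om_univ hφ h0 hi]
  exact ENNReal.inv_mul_cancel (by rw [Ne, ENNReal.ofReal_eq_zero]; linarith) ENNReal.ofReal_ne_top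

theorem bdd (h : S_FUL) {φ : ℝ → ℝ} {C : ℝ} (hD : Dn φ) (hC : 0 < C) (hP : Poin1 φ C)
    {f : EuclideanSpace ℝ ι → ℝ} (hf : ContDiff ℝ 1 f) (hM : ∃ M, ∀ x, |f x| ≤ M) :
    ProbabilityTheory.evariance f (mu ι φ) ≤
      ENNReal.ofReal C * ∫⁻ x, ENNReal.ofReal (‖fderiv ℝ f x‖ ^ 2) ∂(mu ι φ) := by
  classical
  obtain ⟨hi, hZ, hmain⟩ := h ι φ C hD hC hP
  have hp := mu_prob hD.meas hD.nonneg hi hZ
  obtain ⟨M, hM⟩ := hM
  obtain ⟨g, hg⟩ : ∃ g : (ι → ℝ) → ℝ, g = fun y => f (WithLp.toLp 2 y) := ⟨_, rfl⟩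
  have hgc : ContDiff ℝ 1 g := by
    rw [hg]
    exact hf.comp (EuclideanSpace.equiv ι ℝ).symm.contDiff
  have hgM : ∀ x, |g x| ≤ M := by
    intro x
    rw [hg]
    exact hM _
  have h1 := hmain g hgc ⟨M, hgM⟩
  obtain ⟨Z, hZe⟩ : ∃ Z, Z = ∫ x : ι → ℝ, den φ x := ⟨_, rfl⟩
  obtain ⟨P, hPe⟩ : ∃ P, P = ∫ x : ι → ℝ, g x * den φ x := ⟨_, rfl⟩
  obtain ⟨Q, hQe⟩ : ∃ Q, Q = ∫ x : ι → ℝ, g x ^ 2 * den φ x := ⟨_, rfl⟩
  rw [← hZe, ← hPe, ← hQe] at h1
  rw [← hZe] at hZ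
  have hgm : Measurable g := hgc.continuous.measurable
  have i1 : Integrable fun x : ι → ℝ => g x * den φ x := by
    refine hi.bdd_mul (c := M) hgm.aestronglyMeasurable (Eventually.of_forall fun x => ?_)
    exact hgM x
  have i2 : Integrable fun x : ι → ℝ => g x ^ 2 * den φ x := by
    refine hi.bdd_mul (c := M ^ 2) (hgm.pow_const 2).aestronglyMeasurable
      (Eventually.of_forall fun x => ?_)
    rw [Real.norm_of_nonneg (sq_nonneg _), ← sq_abs]
    exact pow_le_pow_left₀ (abs_nonneg _) (hgM x) 2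
  obtain ⟨a, ha⟩ : ∃ a, a = P / Z := ⟨_, rfl⟩
  have i3 : Integrable fun x : ι → ℝ => (g x - a) ^ 2 * den φ x := by
    have e : (fun x : ι → ℝ => (g x - a) ^ 2 * den φ x) =
        fun x => (g x ^ 2 * den φ x - 2 * a * (g x * den φ x)) + a ^ 2 * den φ x := by
      funext x
      ring
    rw [e]
    exact (i2.sub (i1.const_mul _)).add (hi.const_mul _)
  have e3 : ∫ x : ι → ℝ, (g x - a) ^ 2 * den φ x = (Z * Q - P ^ 2) / Z := by
    have e : (fun x : ι → ℝ => (g x - a) ^ 2 * den φ x) =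
        fun x => (g x ^ 2 * den φ x - 2 * a * (g x * den φ x)) + a ^ 2 * den φ x := by
      funext x
      ring
    have j1 : Integrable fun x : ι → ℝ => 2 * a * (g x * den φ x) := i1.const_mul _
    have j2 : Integrable fun x : ι → ℝ => a ^ 2 * den φ x := hi.const_mul _
    have j3 : Integrable fun x : ι → ℝ => g x ^ 2 * den φ x - 2 * a * (g x * den φ x) := i2.sub j1
    rw [e, integral_add j3 j2, integral_sub i2 j1, integral_const_mul, integral_const_mul, ← hZe,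
      ← hPe, ← hQe, ha]
    field_simp
    ring
  have hnn : 0 ≤ (Z * Q - P ^ 2) / Z := by
    rw [← e3]
    exact integral_nonneg fun x => mul_nonneg (sq_nonneg _) (den_nonneg hD.nonneg x)
  have h2 : ∫⁻ x, ENNReal.ofReal ((f x - a) ^ 2) ∂(mu ι φ) =
      ENNReal.ofReal (Z⁻¹ * ((Z * Q - P ^ 2) / Z)) := by
    have j1 : Measurable fun x => ENNReal.ofReal ((f x - a) ^ 2) :=
      ENNReal.measurable_ofReal.comp ((hf.continuous.measurable.sub_const _).pow_const 2)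
    rw [lint_mu hD.meas hD.nonneg hi (by rw [← hZe]; exact hZ) j1, ← hZe,
      ENNReal.ofReal_mul (inv_nonneg.2 hZ.le), ← e3,
      ofReal_integral_eq_lintegral_ofReal i3
        (Eventually.of_forall fun x => mul_nonneg (sq_nonneg _) (den_nonneg hD.nonneg x))]
    congr 1
    refine lintegral_congr fun y => ?_
    rw [mul_comm ((g y - a) ^ 2), ENNReal.ofReal_mul (den_nonneg hD.nonneg y), hg]
  refine (evar_of_lint hf.continuous.measurable (a := a)
    (mul_nonneg (inv_nonneg.2 hZ.le) hnn) h2.le).trans ?_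
  have h3 : ∫⁻ x, ENNReal.ofReal (‖fderiv ℝ f x‖ ^ 2) ∂(mu ι φ) =
      ENNReal.ofReal Z⁻¹ * ∫⁻ x : ι → ℝ, ENNReal.ofReal (gr g x * den φ x) := by
    have j1 : Measurable fun x => ENNReal.ofReal (‖fderiv ℝ f x‖ ^ 2) :=
      ENNReal.measurable_ofReal.comp
        (((hf.continuous_fderiv one_ne_zero).norm.measurable).pow_const 2)
    rw [lint_mu hD.meas hD.nonneg hi (by rw [← hZe]; exact hZ) j1, ← hZe]
    congr 1
    refine lintegral_congr fun y => ?_
    rw [hg, gr_eq hf, mul_comm (‖fderiv ℝ f (WithLp.toLp 2 y)‖ ^ 2),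
      ENNReal.ofReal_mul (den_nonneg hD.nonneg y)]
  rw [h3]
  have e4 : Z⁻¹ * ((Z * Q - P ^ 2) / Z) = (Z ^ 2)⁻¹ * (Z * Q - P ^ 2) := by
    field_simp
  have e5 : C * Z⁻¹ = (Z ^ 2)⁻¹ * (C * Z) := by
    field_simp
  rw [e4, ENNReal.ofReal_mul (by positivity), ← mul_assoc, ← ENNReal.ofReal_mul hC.le, e5,
    ENNReal.ofReal_mul (by positivity), mul_assoc]
  exact mul_le_mul' le_rfl h1

end bounded

/-- **The job T.** -/
theorem tt_thm (h : S_FUL) : S_T := by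
  classical
  intro ι _ _ φ C hD hC hP
  obtain ⟨hi, hZ, -⟩ := h ι φ C hD hC hP
  have hp := mu_prob hD.meas hD.nonneg hi hZ
  refine ⟨hp, fun f hf => ?_⟩
  by_cases htop : ENNReal.ofReal C * ∫⁻ x, ENNReal.ofReal (‖fderiv ℝ f x‖ ^ 2) ∂(mu ι φ) = ⊤
  · rw [htop]
    exact le_top
  · rw [← ENNReal.ofReal_toReal htop]
    refine evar_lim (g := tr f) hf.continuous.measurable
      (fun n => (tr_contDiff hf n).continuous.measurable) (tr_lim f) ENNReal.toReal_nonneg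
      (tr_le f) ?_
    intro n
    rw [ENNReal.ofReal_toReal htop]
    refine (bdd h hD hC hP (tr_contDiff hf n) (tr_bdd f n)).trans ?_
    refine mul_le_mul' le_rfl (lintegral_mono fun x => ENNReal.ofReal_le_ofReal ?_)
    exact pow_le_pow_left₀ (norm_nonneg _) (tr_fderiv hf n x) 2

end Pool.Agent.Q31.OP
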